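import Pool.Agent.Helper52.NF.St

/-!
# Project NF, module PB: pulling back a packing through a contraction
-/

set_option autoImplicit false

namespace Pool.Agent.Helper75.NF
open Pool.Agent.Helper52.NF Finset

private lemma rho_at {ε N : Type} (α β : ε → N) (E : Finset ε) (x : N) {e : ε} (he : e ∈ E)
    (h : At α β x e) : rho α β E x (α e) = x ∧ rho α β E x (β e) = x := by
  unfold rho
  rcases h with h | h
  · rw [if_pos (Or.inl h), if_pos (Or.inr ⟨e, he, Or.inl ⟨h, rfl⟩⟩)]
    exact ⟨rfl, rfl⟩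
  · rw [if_pos (Or.inl h), if_pos (Or.inr ⟨e, he, Or.inr ⟨rfl, h⟩⟩)]
    exact ⟨rfl, rfl⟩

private lemma rho_ne {ε N : Type} (α β : ε → N) (E : Finset ε) (x : N) {v : N}
    (h : rho α β E x v ≠ x) : rho α β E x v = v := by
  unfold rho at h ⊢
  split_ifs at h ⊢ with h1
  · exact absurd rfl h
  · rfl

theorem hPB : StPB := by
  intro ε N _ _ _ α β E J x e₀ O' q S' hb hx hP
  obtain ⟨h1, h2, h3, h4⟩ := hP
  have hoff : ∀ e ∈ E, ¬ At α β x e → e ∈ offx α β E x := fun e he h => by
    unfold offx
    classical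
    exact Finset.mem_filter.2 ⟨he, h⟩
  have hmem : ∀ (i : Fin q) (u : N),
      u ∈ Finset.univ.filter (fun u => rho α β E x u ∈ S' i) ↔ rho α β E x u ∈ S' i :=
    fun i u => by simp
  refine ⟨?_, ?_, ?_, ?_⟩
  · intro i
    rw [← h1 i]
    have h5 := Finset.sum_fiberwise_of_maps_to
      (s := Finset.univ.filter (fun u => rho α β E x u ∈ S' i)) (t := S' i)
      (g := fun u => rho α β E x u) (fun u hu => (hmem i u).1 hu) (fun u => bd α β J u)
    rw [← h5]
    refine Finset.sum_congr rfl fun v hv => ?_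
    rw [hb v]
    refine Finset.sum_congr ?_ fun _ _ => rfl
    ext u
    simp only [Finset.mem_filter, Finset.mem_univ, true_and]
    constructor
    · rintro ⟨_, h⟩; exact h
    · intro h
      exact ⟨by rw [h]; exact hv, h⟩
  · intro i e he hβ
    rw [hmem] at hβ ⊢
    by_cases ha : At α β x e
    · obtain ⟨ha1, ha2⟩ := rho_at α β E x he ha
      rw [ha1, ← ha2]; exact hβ
    · exact h2 i e (hoff e he ha) hβ
  · intro i e he hα hβ
    rw [hmem] at hα hβ
    by_cases ha : At α β x e
    · obtain ⟨ha1, ha2⟩ := rho_at α β E x he ha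
      rw [ha1] at hα
      rw [ha2] at hβ
      exact absurd hα hβ
    · have h6 : rho α β E x (β e) ∈ O' := h3 i e (hoff e he ha) hα hβ
      have h7 : rho α β E x (β e) ≠ x := fun h => hx (by rw [← h]; exact h6)
      rw [rho_ne α β E x h7] at h6
      exact h6
  · intro i j hij e he e' he' hα hβ hα' hβ'
    rw [hmem] at hα hβ hα' hβ'
    have hna : ¬ At α β x e := fun ha => by
      obtain ⟨ha1, ha2⟩ := rho_at α β E x he ha
      rw [ha1] at hα
      rw [ha2] at hβ
      exact hβ hα
    have hna' : ¬ At α β x e' := fun ha => by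
      obtain ⟨ha1, ha2⟩ := rho_at α β E x he' ha
      rw [ha1] at hα'
      rw [ha2] at hβ'
      exact hβ' hα'
    have h8 := h4 i j hij e (hoff e he hna) e' (hoff e' he' hna') hα hβ hα' hβ'
    intro heq
    apply h8
    show rho α β E x (β e) = rho α β E x (β e')
    rw [heq]

end Pool.Agent.Helper75.NF
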